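import Pool.Agent.X258.HQ.Cube

/-! # The homeomorphism group of the Hilbert cube is the union of a meagre and a Haar null set

The group of homeomorphisms of a compact metrizable space is a Polish group for the compact-open
topology, and that of the Hilbert cube contains the nonconstant path `t ↦ (xₙ ↦ xₙ ^ (1 + t))`. So
it is not non-archimedean (an open subgroup contains the path), and every Polish group which is not
non-archimedean is the union of a meagre set and a Haar null set (starting result
`MP_a4a5b6_lc.NotNonArchimedean`). -/

set_option autoImplicit false

open Set Topology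

namespace Pool.Agent.Results.MP_08a145_lc.HilbertCube

/-- The Hilbert cube, with the product topology. -/
abbrev Q : Type := ℕ → unitInterval

/-- The topology of the group of homeomorphisms of `Q`: the compact-open topology of the space
`C(Q, Q)` of continuous maps, restricted to the homeomorphisms. -/
instance topHQ : TopologicalSpace (Q ≃ₜ Q) :=
  TopologicalSpace.induced (fun h => (⟨h, h.continuous⟩ : C(Q, Q))) inferInstance

/-- `A` is Haar null in the topological group `G`: it lies in a Borel set `B` all of whose
two-sided translates are null for one Borel probability measure. -/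
def HaarNull {G : Type} [Group G] [TopologicalSpace G] (A : Set G) : Prop :=
  ∃ B : Set G, A ⊆ B ∧ @MeasurableSet G (borel G) B ∧
    ∃ μ : @MeasureTheory.Measure G (borel G), @MeasureTheory.IsProbabilityMeasure G (borel G) μ ∧
      ∀ g h : G, μ ((fun x => g * x * h) '' B) = 0

/-- The group of homeomorphisms of the Hilbert cube is a Polish group, and it is the disjoint union
of a Haar null set and a meagre set. -/
theorem result : (IsTopologicalGroup (Q ≃ₜ Q) ∧ PolishSpace (Q ≃ₜ Q)) ∧
    ∃ A M : Set (Q ≃ₜ Q), Disjoint A M ∧ A ∪ M = univ ∧ HaarNull A ∧ IsMeagre M :=
  ⟨⟨Pool.Agent.X258.HQ.topGroup, Pool.Agent.X258.HQ.polish⟩, Pool.Agent.X258.HQ.cube_decomp⟩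

end Pool.Agent.Results.MP_08a145_lc.HilbertCube
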